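import Pool.Agent.Work.MP_8b6acb_fs.Interface
import Pool.Agent.Work.MP_8b6acb_fq.FPARTQ

/-! Block FPARTK: the colour F part, by complementation. -/

namespace R5

namespace K

open Finset MP_8b6acb_co

section

open FPARTAux

variable {α : Type} [DecidableEq α] {τ τ' : Finset α → Lab} {D : Finset α}

theorem KV_congr {ρ ρ' : Finset α → α → ℝ} {χ χ' : Finset α → Finset α → ℝ} {X U : Finset α}
    (hρ : ∀ g ∈ D, ρ X g = ρ' X g) (hχ : χ X U = χ' X U) :
    KV ρ χ D X U = KV ρ' χ' D X U := by
  unfold KV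
  have h1 : ∑ g ∈ D \ U, Real.log (ρ X g) = ∑ g ∈ D \ U, Real.log (ρ' X g) :=
    sum_congr rfl fun g hg => by rw [hρ g (mem_sdiff.1 hg).1]
  rw [h1, hχ]

theorem LV_congr {ρ ρ' : Finset α → α → ℝ} {χ χ' : Finset α → Finset α → ℝ}
    {H H' : Finset α → ℝ} (h : ∀ U ⊆ D, τ U = τ' U)
    (hρ : ∀ X ⊆ D, ∀ g ∈ D, ρ X g = ρ' X g) (hχ : ∀ X ⊆ D, ∀ U ⊆ D, χ X U = χ' X U)
    (hH : ∀ V ⊆ D, H V = H' V) :
    LV τ D ρ χ H = LV τ' D ρ' χ' H' := by
  unfold LV
  congr 1
  · congr 1
    · refine sum_congr rfl fun X hX => ?_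
      rw [mem_powerset] at hX
      congr 1
      · refine sum_congr rfl fun V hV => sum_congr rfl fun x hx => ?_
        rw [mem_powerset] at hV
        rw [mem_sdiff] at hx
        have hi : insert x V ⊆ D := insert_subset hx.1 hV
        rw [pe_congr h hX hV hx.1, KV_congr (hρ X hX) (hχ X hX _ hi)]
      · refine sum_congr rfl fun V hV => ?_
        rw [mem_powerset] at hV
        rw [pv_congr h hX hV, KV_congr (hρ X hX) (hχ X hX _ hV)]
    · refine sum_congr rfl fun V hV => sum_congr rfl fun x hx => ?_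
      rw [mem_powerset] at hV
      rw [mem_sdiff] at hx
      rw [yLe_congr h hV hx.1, hH V hV, Zt_congr h]
  · refine sum_congr rfl fun V hV => ?_
    rw [mem_powerset] at hV
    rw [yLv_congr h hV, hH V hV, Zt_congr h]

end

open FPARTAux in
theorem stmt_FPARTK (α : Type) [Fintype α] [DecidableEq α] (hLP : Stmt_LPARTK α) :
    Stmt_FPARTK α := by
  intro c i j S T a b χ hN hker
  by_cases hT : T = ∅
  · subst hT
    have e1 : ∀ v x, WFE c S ∅ a b v x = 0 := by
      intro v x; unfold WFE; simp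
    have e2 : ∀ v, WFX c S ∅ a b v = 0 := by
      intro v; unfold WFX; simp
    simp [e1, e2]
  obtain ⟨t0, ht0⟩ := nonempty_iff_ne_empty.2 hT
  have hj : j ≤ Fintype.card α := by
    rw [← hN.cT t0 ht0]; exact card_le_univ t0
  have hij := hN.hij
  have hmain := hLP (cc c) (Fintype.card α - j) (Fintype.card α - i) (T.image compl)
    (S.image compl) (fun u => b uᶜ) (fun u => a uᶜ) χ (net_compl hN hj) hker
  have hL : ∑ s ∈ T.image compl, ∑ t ∈ (S.image compl).filter (fun t => s ⊆ t),
      b sᶜ * a tᶜ * LV (ty (cc c) s) (t \ s)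
        (rS (cc c) (S.image compl) (fun u => b uᶜ) (fun u => a uᶜ) s) (χ s t)
        (fun V => -Real.log (NU (cc c) (T.image compl) (fun u => b uᶜ) (fun u => a uᶜ) t
          (s ∪ V))) =
      ∑ s ∈ S, ∑ t ∈ T.filter (fun t => s ⊆ t), a s * b t *
        LV (dual (ty c s) (t \ s)) (t \ s)
          (fun U g => NU c S a b t (s ∪ ((t \ s) \ insert g U)) /
            NU c S a b t (s ∪ ((t \ s) \ U)))
          (χ tᶜ sᶜ)
          (fun U => -Real.log (MU c T a b s (s ∪ ((t \ s) \ U)))) := by
    rw [sum_pairs_compl S T]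
    refine sum_congr rfl fun s _ => sum_congr rfl fun t ht => ?_
    rw [mem_filter] at ht
    have hst := ht.2
    rw [compl_compl, compl_compl, compl_sdiff_compl, mul_comm (b t) (a s)]
    congr 1
    refine LV_congr (ty_compl c hst) ?_ ?_ ?_
    · intro X hX g hg
      unfold rS
      rw [MU_compl c S a b subset_union_left, MU_compl c S a b subset_union_left,
        compl_un hst (insert_subset hg hX), compl_un hst hX]
    · intro X _ U _
      rfl
    · intro V hV
      have : tᶜ ∪ V ⊆ sᶜ := by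
        refine union_subset (compl_le_compl_iff_le.2 hst) ?_
        intro y hy
        exact mem_compl.2 (mem_sdiff.1 (hV hy)).2
      rw [NU_compl c T a b this, compl_un hst hV]
  rw [hL] at hmain
  refine hmain.trans (le_of_eq ?_)
  have hc1 : ((Fintype.card α - j : ℕ) : ℝ) = (Fintype.card α : ℝ) - j := Nat.cast_sub hj
  have hc2 : ((Fintype.card α - i : ℕ) : ℝ) = (Fintype.card α : ℝ) - i :=
    Nat.cast_sub (by omega)
  have hE := sum_netE_compl (c := c) (S := S) (T := T) hij hj (fun v x =>
    WE (cc c) (T.image compl) (S.image compl) (fun u => b uᶜ) (fun u => a uᶜ) v x *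
      Real.log (((v.card : ℝ) - (Fintype.card α - j : ℕ) + 1) /
        (((Fintype.card α - i : ℕ) : ℝ) - (Fintype.card α - j : ℕ) + 1)) -
    WE (cc c) (T.image compl) (S.image compl) (fun u => b uᶜ) (fun u => a uᶜ) v x *
      Real.log (WE (cc c) (T.image compl) (S.image compl) (fun u => b uᶜ) (fun u => a uᶜ) v x))
  have hX := sum_netX_compl (c := c) hij hj (fun v =>
    WX (cc c) (T.image compl) (S.image compl) (fun u => b uᶜ) (fun u => a uᶜ) v *
      (Real.log (((Fintype.card α - i : ℕ) : ℝ) - (Fintype.card α - j : ℕ)) +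
        Real.log (((v.card : ℝ) - (Fintype.card α - j : ℕ)) /
        (((Fintype.card α - i : ℕ) : ℝ) - (Fintype.card α - j : ℕ)))) -
    WX (cc c) (T.image compl) (S.image compl) (fun u => b uᶜ) (fun u => a uᶜ) v *
      Real.log (WX (cc c) (T.image compl) (S.image compl) (fun u => b uᶜ) (fun u => a uᶜ) v))
  rw [hE, hX]
  congr 1
  · refine sum_congr rfl fun e he => ?_
    have hx : e.2 ∉ e.1 := by
      simp only [netE, mem_filter] at he; exact he.2.1
    have hcard : (((insert e.2 e.1)ᶜ.card : ℕ) : ℝ) = (Fintype.card α : ℝ) - (e.1.card + 1) := by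
      rw [card_compl, Nat.cast_sub (card_le_univ _), card_insert_of_notMem hx]
      push_cast
      ring
    rw [WE_compl c S T a b hx, hcard, hc1, hc2]
    have r1 : (Fintype.card α : ℝ) - (e.1.card + 1) - (Fintype.card α - j) + 1 =
        (j : ℝ) - e.1.card := by ring
    have r2 : (Fintype.card α : ℝ) - i - (Fintype.card α - j) + 1 = (j : ℝ) - i + 1 := by ring
    rw [r1, r2]
  · refine sum_congr rfl fun v hv => ?_
    have hcard : ((vᶜ.card : ℕ) : ℝ) = (Fintype.card α : ℝ) - v.card := by
      rw [card_compl, Nat.cast_sub (card_le_univ _)]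
    rw [WX_compl c S T a b, hcard, hc1, hc2]
    have r1 : (Fintype.card α : ℝ) - v.card - (Fintype.card α - j) = (j : ℝ) - v.card := by ring
    have r2 : (Fintype.card α : ℝ) - i - (Fintype.card α - j) = (j : ℝ) - i := by ring
    rw [r1, r2]

end K

end R5
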