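import Pool.Agent.Work.MP_8b6acb_fs.Interface
import Pool.Agent.Work.MP_8b6acb_fq.OBJQ
import Pool.Agent.Work.MP_8b6acb_fq.VLB
import Pool.Agent.Work.MP_8b6acb_cap.MAINNET

/-! # The set kernel is legal -/

namespace R5

namespace K

open Finset MP_8b6acb_co

section

variable {α : Type} [DecidableEq α]

/-- Lower bound for the total cost of a sequence. -/
theorem csum_ge {c : Finset α → ℝ} {C : ℝ} {D : Finset α} : ∀ (π : List α) (W : Finset α),
    W ∪ π.toFinset = D → π.Nodup → (∀ x ∈ π, x ∉ W) →
    (∀ W', W ⊆ W' → W' ⊆ D → W' ≠ D → C ≤ c W') → (π.length : ℝ) * C ≤ csum c W π := by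
  intro π
  induction π with
  | nil =>
    intro W _ _ _ _
    show ((0 : ℕ) : ℝ) * C ≤ 0
    simp
  | cons x π ih =>
    intro W hD hnd hW hC
    rw [List.nodup_cons] at hnd
    have hxW : x ∉ W := hW x List.mem_cons_self
    have hWD : W ⊆ D := by rw [← hD]; exact subset_union_left
    have hne : W ≠ D := by
      intro h
      apply hxW
      rw [h, ← hD]
      exact mem_union_right _ (List.mem_toFinset.2 List.mem_cons_self)
    have h1 := hC W (Subset.refl _) hWD hne
    have h2 := ih (insert x W) (by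
      rw [← hD, List.toFinset_cons, insert_union, union_insert]) hnd.2 (by
      intro y hy h
      rcases mem_insert.1 h with h3 | h3
      · exact hnd.1 (h3 ▸ hy)
      · exact hW y (List.mem_cons_of_mem _ hy) h3)
      (fun W' h3 h4 h5 => hC W' ((subset_insert _ _).trans h3) h4 h5)
    have e : csum c W (x :: π) = c W + csum c (insert x W) π := rfl
    rw [e, List.length_cons]
    push_cast
    linarith

theorem bwb_le_one (τ : Finset α → Lab) (D V : Finset α) : bwb τ D V ≤ 1 := by
  rw [← fwb_dual]
  exact fwb_le_one _ _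

theorem gg_zero (b : ℕ) : gg b 0 = 0 := by
  unfold gg
  simp

/-- The slot part is nonnegative. -/
theorem slot_nonneg {ρ : α → ℝ} {D X U : Finset α} (hXU : X ⊆ U) (hU : U ⊆ D)
    (hρ : ∀ g ∈ D \ X, 0 < ρ g ∧ ρ g ≤ 1) :
    0 ≤ ((D.card : ℝ) - U.card) *
      (-Real.log (1 - (∑ g ∈ U \ X, ρ g) / ((D.card : ℝ) - X.card))) := by
  have hUc : (U.card : ℝ) ≤ D.card := by exact_mod_cast card_le_card hU
  have hsub : U \ X ⊆ D \ X := sdiff_subset_sdiff hU (Subset.refl _)
  have a1 : 0 ≤ ∑ g ∈ U \ X, ρ g := sum_nonneg fun g hg => (hρ g (hsub hg)).1.le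
  have b1 : ∑ g ∈ U \ X, ρ g ≤ ((U \ X).card : ℝ) := by
    calc ∑ g ∈ U \ X, ρ g ≤ ∑ g ∈ U \ X, (1 : ℝ) :=
          sum_le_sum fun g hg => (hρ g (hsub hg)).2
      _ = ((U \ X).card : ℝ) := by simp
  have c1 : ((U \ X).card : ℝ) = (U.card : ℝ) - X.card := card_sdiff_cast hXU
  have c4 : (X.card : ℝ) ≤ U.card := by exact_mod_cast card_le_card hXU
  rcases eq_or_lt_of_le (show (0 : ℝ) ≤ (D.card : ℝ) - X.card by linarith) with hn | hn
  · rw [← hn]
    simp
  have hq : (∑ g ∈ U \ X, ρ g) / ((D.card : ℝ) - X.card) ≤ 1 := by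
    rw [div_le_one hn]
    linarith
  have hq0 : 0 ≤ (∑ g ∈ U \ X, ρ g) / ((D.card : ℝ) - X.card) := div_nonneg a1 hn.le
  have := Real.log_nonpos (x := 1 - (∑ g ∈ U \ X, ρ g) / ((D.card : ℝ) - X.card))
    (by linarith) (by linarith)
  exact mul_nonneg (by linarith) (by linarith)

theorem pe_zero (τ : Finset α → Lab) {D X V : Finset α} {x : α} (h : ¬ X ⊆ V) :
    pe τ D X V x = 0 := by
  unfold pe
  rw [if_neg (fun hh => h hh.1)]

theorem pv_zero (τ : Finset α → Lab) {D X V : Finset α} (h : ¬ X ⊆ V) :
    pv τ D X V = 0 := by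
  unfold pv
  rw [if_neg (fun hh => h hh.1)]

/-- The side value is nonnegative if the extra part is nonnegative on the support. -/
theorem SGx_nonneg (τ : Finset α → Lab) (D : Finset α) (ρ : Finset α → α → ℝ)
    (χ : Finset α → Finset α → ℝ)
    (hρ : ∀ X ⊆ D, ∀ g ∈ D \ X, 0 < ρ X g ∧ ρ X g ≤ 1)
    (hχ : ∀ X U : Finset α, X ⊆ U → U ⊆ D → 0 ≤ χ X U) : 0 ≤ SGx τ D ρ χ := by
  unfold SGx
  refine sum_nonneg fun X hX => ?_
  rw [mem_powerset] at hX
  have h1 : 0 ≤ ∑ g ∈ D \ X, PP1 τ D X g * (Real.log ((D \ X).card : ℝ) - Real.log (ρ X g)) := by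
    refine sum_nonneg fun g hg => ?_
    have hp : 0 ≤ PP1 τ D X g := by
      unfold PP1
      refine sum_nonneg fun V hV => ?_
      rw [mem_powerset] at hV
      exact VLBQ.pe_nn τ (hV.trans (erase_subset _ _))
    have hr := hρ X hX g hg
    have hl : Real.log (ρ X g) ≤ 0 := Real.log_nonpos hr.1.le hr.2
    have hn : 0 ≤ Real.log ((D \ X).card : ℝ) := Real.log_natCast_nonneg _
    exact mul_nonneg hp (by linarith)
  have h2 : 0 ≤ ∑ V ∈ D.powerset, ∑ x ∈ D \ V,
      pe τ D X V x * (χ X (insert x V) - Real.log (bw τ D (insert x V))) := by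
    refine sum_nonneg fun V hV => sum_nonneg fun x hx => ?_
    rw [mem_powerset] at hV
    by_cases hXV : X ⊆ V
    · have h3 := hχ X (insert x V) (hXV.trans (subset_insert _ _))
        (insert_subset (mem_sdiff.1 hx).1 hV)
      have h4 := Real.log_nonpos (bw_nonneg τ D (insert x V)) (bw_le_one τ D (insert x V))
      exact mul_nonneg (VLBQ.pe_nn τ hV) (by linarith)
    · rw [pe_zero τ hXV, zero_mul]
  have h3 : 0 ≤ ∑ V ∈ D.powerset, pv τ D X V * (χ X V - Real.log (bwb τ D V)) := by
    refine sum_nonneg fun V hV => ?_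
    rw [mem_powerset] at hV
    by_cases hXV : X ⊆ V
    · have h3 := hχ X V hXV hV
      have h4 := Real.log_nonpos (bwb_nonneg τ D V) (bwb_le_one τ D V)
      exact mul_nonneg (VLBQ.pv_nn τ) (by linarith)
    · rw [pv_zero τ hXV, zero_mul]
  linarith

theorem cset_nonneg {ρ : Finset α → α → ℝ} {mk : Finset α → Finset α} {D X U : Finset α}
    (hρ : ∀ X ⊆ D, ∀ g ∈ D \ X, 0 < ρ X g ∧ ρ X g ≤ 1) (hXU : X ⊆ U) (hU : U ⊆ D) :
    0 ≤ cset ρ mk D X U := by
  unfold cset
  exact add_nonneg (VLBQ.gm_nonneg _ _ _) (slot_nonneg hXU hU (hρ X (hXU.trans hU)))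

end

section net

variable {α : Type} [Fintype α] [DecidableEq α] {c : Finset α → Lab} {i j : ℕ}
  {S T : Finset (Finset α)} {a b : Finset α → ℝ}

/-- The set kernel is a sub-probability. -/
theorem ker_set (hKS : Stmt_KSUM α) (hKL : Stmt_KLOG α) (h : Net c i j S T a b)
    (mk : Finset α → Finset α → Finset α) (hmk : ∀ s u, Disjoint (mk s u) u) :
    KerOK c S T a b
      (fun s t => cset (rS c T a b s) (fun U => mk s (s ∪ U)) (t \ s)) := by
  intro s hs X U hXU hsU
  obtain ⟨vp, hvp⟩ : ∃ vp, vp = s ∪ U := ⟨_, rfl⟩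
  obtain ⟨T', hT'⟩ : ∃ T', T' = T.filter (fun t => s ∪ U ⊆ t) := ⟨_, rfl⟩
  rw [← hT']
  have mT : ∀ t, t ∈ T' ↔ t ∈ T ∧ vp ⊆ t := fun t => by rw [hT', mem_filter, hvp]
  have hsvp : s ⊆ vp := by rw [hvp]; exact subset_union_left
  have eU : vp \ s = U := by
    rw [hvp]
    ext y
    simp only [mem_sdiff, mem_union]
    constructor
    · rintro ⟨h1 | h1, h2⟩
      · exact absurd h1 h2
      · exact h1
    · intro h1
      exact ⟨Or.inr h1, fun h2 => (Finset.disjoint_left.1 hsU h2) h1⟩
  have hXv : X ⊆ vp \ s := by rw [eU]; exact hXU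
  have hc : ∀ t ∈ T', (t \ vp).card = j - vp.card ∧ vp.card ≤ j := by
    intro t ht
    have h1 := (mT t).1 ht
    refine ⟨?_, ?_⟩
    · rw [card_sdiff_of_subset h1.2, h.cT t h1.1]
    · have := card_le_card h1.2
      rw [h.cT t h1.1] at this
      exact this
  rcases Nat.lt_or_ge vp.card j with hvj | hvj
  · -- the main case
    have hqs := qk_sum hKS h mk hmk hs hsvp hXv (Subset.refl vp) T' (fun t ht => (mT t).1 ht)
    refine le_trans (sum_le_sum fun t ht => ?_) hqs
    obtain ⟨htT, htv⟩ := (mT t).1 ht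
    obtain ⟨hcR, -⟩ := hc t ht
    have hst : s ⊆ t := hsvp.trans htv
    have hXt : X ⊆ t := (hXU.trans (by rw [← eU]; exact sdiff_subset)).trans htv
    -- all sequences give the same lower bound
    have hlow : ∀ π ∈ seqs (j - vp.card) (t \ vp),
        Real.exp (KV (rS c T a b s)
          (cset (rS c T a b s) (fun U => mk s (s ∪ U)) (t \ s)) (t \ s) X U) /
          ((j - vp.card).factorial : ℝ) ≤ qk c i j T a b mk vp s X π := by
      intro π hπ
      rw [← hcR] at hπ
      obtain ⟨k1, k2⟩ := qk_log hKL h mk hs htT hsvp hXv (Subset.refl vp) htv hvj hπ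
      have hfac : (0 : ℝ) < ((j - vp.card).factorial : ℝ) := by
        exact_mod_cast Nat.factorial_pos _
      rw [div_le_iff₀ hfac, ← Real.exp_log k1, ← Real.exp_log hfac, ← Real.exp_add,
        Real.exp_le_exp, add_comm]
      rw [hcR, eU] at k2
      rw [k2]
      obtain ⟨m1, m2, m3⟩ := mem_seqs.1 hπ
      have e1 : KV (rS c T a b s) (cset (rS c T a b s) (fun U => mk s (s ∪ U)) (t \ s))
          (t \ s) X U = R5.KV (rh c T a b s) (fun U => mk s (s ∪ U)) (t \ s) X U +
          (((t \ s).card : ℝ) - U.card) *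
            (-Real.log (1 - (∑ g ∈ U \ X, rh c T a b s X g) /
              (((t \ s).card : ℝ) - X.card))) := by
        unfold KV R5.KV cset
        have : rS c T a b s = rh c T a b s := rfl
        rw [this]
        ring
      rw [e1]
      have hUt : U ⊆ t \ s := by
        rw [← eU]
        exact sdiff_subset_sdiff htv (Subset.refl _)
      have hlen : (π.length : ℝ) = ((t \ s).card : ℝ) - U.card := by
        rw [m2, card_sdiff_cast hst, card_sdiff_cast htv, hvp, card_union_of_disjoint hsU]
        push_cast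
        ring
      rw [← hlen]
      have hDU : (t \ s) \ U = t \ vp := by
        rw [hvp, sdiff_sdiff]
        rfl
      have hge := csum_ge (c := SS (rh c T a b s) (fun U => mk s (s ∪ U)) (t \ s) X U)
        (C := -Real.log (1 - (∑ g ∈ U \ X, rh c T a b s X g) / (((t \ s).card : ℝ) - X.card)))
        (D := t \ s) π U (by
          rw [toFinset_eq_of_mem_seqs hπ, ← hDU]
          exact union_sdiff_of_subset hUt) m1 (by
          intro x hx h1
          have h2 := m3 x hx
          rw [← hDU] at h2
          exact (mem_sdiff.1 h2).2 h1) (by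
          intro W h1 h2 h3
          unfold SS sc
          have hn : (0 : ℝ) < ((t \ s).card : ℝ) - X.card := by
            have g1 : X.card ≤ W.card := card_le_card (hXU.trans h1)
            have g2 : W.card < (t \ s).card := card_lt_card (ssubset_of_subset_of_ne h2 h3)
            have g3 : (X.card : ℝ) < (t \ s).card := by exact_mod_cast lt_of_le_of_lt g1 g2
            linarith
          have hav := rh_avail h hs htT hsvp hXv (Subset.refl vp) htv
          rw [eU] at hav
          have hnn : ((t \ s).card : ℝ) - X.card = (j : ℝ) - i - X.card := by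
            rw [card_sdiff_cast hst, h.cT t htT, h.cS s hs]
          obtain ⟨z, hz1, hz2⟩ : ∃ z ∈ t \ s, z ∉ W := by
            by_contra hcon
            push Not at hcon
            exact h3 (Subset.antisymm h2 hcon)
          have hzt : z ∈ t := (mem_sdiff.1 hz1).1
          have hzp : 0 < rh c T a b s X z := rh_pos h hs htT hst hXt hzt
          have hzv : z ∉ vp := by
            intro h4
            apply hz2
            apply h1
            rw [← eU]
            exact mem_sdiff.2 ⟨h4, (mem_sdiff.1 hz1).2⟩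
          have hlt : ∑ g ∈ (W \ U) \ mk s (s ∪ U), rh c T a b s X g +
              rh c T a b s X z ≤ ∑ g ∈ univ \ vp, rh c T a b s X g := by
            have hz3 : z ∉ (W \ U) \ mk s (s ∪ U) := fun h4 =>
              hz2 (mem_sdiff.1 (mem_sdiff.1 h4).1).1
            rw [add_comm, ← sum_insert hz3]
            refine sum_le_sum_of_subset_of_nonneg ?_ (fun g _ _ => rh_nonneg h hs X g)
            intro y hy
            rw [mem_insert] at hy
            rw [mem_sdiff]
            refine ⟨mem_univ _, ?_⟩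
            rcases hy with h4 | h4
            · rw [h4]; exact hzv
            · have h5 := mem_sdiff.1 (mem_sdiff.1 h4).1
              intro h6
              apply h5.2
              rw [← eU]
              exact mem_sdiff.2 ⟨h6, (mem_sdiff.1 (h2 h5.1)).2⟩
          have hs0 : 0 ≤ ∑ g ∈ (W \ U) \ mk s (s ∪ U), rh c T a b s X g :=
            sum_nonneg fun g _ => rh_nonneg h hs X g
          have hpos : 0 < 1 - (∑ g ∈ U \ X, rh c T a b s X g +
              ∑ g ∈ (W \ U) \ mk s (s ∪ U), rh c T a b s X g) /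
              (((t \ s).card : ℝ) - X.card) := by
            rw [sub_pos, div_lt_one hn, hnn]
            linarith
          have hmono : (∑ g ∈ U \ X, rh c T a b s X g) / (((t \ s).card : ℝ) - X.card) ≤
              (∑ g ∈ U \ X, rh c T a b s X g +
                ∑ g ∈ (W \ U) \ mk s (s ∪ U), rh c T a b s X g) /
              (((t \ s).card : ℝ) - X.card) := by
            rw [div_le_div_iff_of_pos_right hn]
            linarith
          have := Real.log_le_log hpos (sub_le_sub_left hmono 1)
          linarith)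
      linarith
    have hcount : ((seqs (j - vp.card) (t \ vp)).card : ℝ) =
        ((j - vp.card).factorial : ℝ) := by
      have := card_seqs_card (t \ vp)
      rw [hcR] at this
      exact_mod_cast this
    have hfac : (0 : ℝ) < ((j - vp.card).factorial : ℝ) := by
      exact_mod_cast Nat.factorial_pos _
    calc _ = ∑ _π ∈ seqs (j - vp.card) (t \ vp),
          Real.exp (KV (rS c T a b s)
            (cset (rS c T a b s) (fun U => mk s (s ∪ U)) (t \ s)) (t \ s) X U) /
            ((j - vp.card).factorial : ℝ) := by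
          rw [sum_const, nsmul_eq_mul, hcount, mul_div_cancel₀ _ hfac.ne']
      _ ≤ _ := sum_le_sum hlow
  · -- the trivial case
    have h1 : ∀ t ∈ T', t = vp := by
      intro t ht
      have h2 := (mT t).1 ht
      refine (eq_of_subset_of_card_le h2.2 ?_).symm
      rw [h.cT t h2.1]
      exact hvj
    have h2 : ∀ t ∈ T', Real.exp (KV (rS c T a b s)
        (cset (rS c T a b s) (fun U => mk s (s ∪ U)) (t \ s)) (t \ s) X U) = 1 := by
      intro t ht
      rw [h1 t ht, eU]
      unfold KV cset gm
      simp [gg_zero]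
    rw [sum_congr rfl h2, sum_const, nsmul_eq_mul, mul_one]
    have h3 : T' ⊆ {vp} := fun t ht => mem_singleton.2 (h1 t ht)
    have h4 := card_le_card h3
    rw [card_singleton] at h4
    exact_mod_cast h4

open FPARTAux in
/-- The set kernel is a legal side. -/
theorem legal_vset (hKS : Stmt_KSUM α) (hKL : Stmt_KLOG α) : Legal (vset (α := α)) := by
  refine ⟨?_, ?_, ?_⟩
  · intro τ τ' D ρ ρ' L hτ hρ
    unfold vset SGs SGx
    refine sum_congr rfl fun X hX => ?_
    rw [mem_powerset] at hX
    have hcs : ∀ U ⊆ D, cset ρ (fun U => L \ U) D X U = cset ρ' (fun U => L \ U) D X U := by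
      intro U hU
      unfold cset
      have e : ∑ g ∈ U \ X, ρ X g = ∑ g ∈ U \ X, ρ' X g :=
        sum_congr rfl fun g hg => hρ X hX g (hU (mem_sdiff.1 hg).1)
      rw [e]
    congr 1
    · congr 1
      · refine sum_congr rfl fun g hg => ?_
        rw [mem_sdiff] at hg
        have e : PP1 τ D X g = PP1 τ' D X g := by
          unfold PP1
          refine sum_congr rfl fun V hV => ?_
          rw [mem_powerset] at hV
          exact pe_congr hτ hX (hV.trans (erase_subset _ _)) hg.1
        rw [e, hρ X hX g hg.1]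
      · refine sum_congr rfl fun V hV => sum_congr rfl fun x hx => ?_
        rw [mem_powerset] at hV
        rw [mem_sdiff] at hx
        have hi : insert x V ⊆ D := insert_subset hx.1 hV
        rw [pe_congr hτ hX hV hx.1, hcs _ hi, bw_congr hτ]
    · refine sum_congr rfl fun V hV => ?_
      rw [mem_powerset] at hV
      rw [pv_congr hτ hX hV, hcs _ hV, bwb_congr hτ]
  · intro τ D ρ L _ _ hρ
    exact SGx_nonneg τ D ρ _ hρ (fun X U h1 h2 => cset_nonneg hρ h1 h2)
  · intro c i j S T a b Lf h hLf
    refine ⟨fun s t => cset (rS c T a b s) (fun U => Lf s \ (s ∪ U)) (t \ s),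
      ker_set hKS hKL h (fun s u => Lf s \ u) (fun s u => sdiff_disjoint), ?_⟩
    intro s hs t _ _
    have e : (fun U => Lf s \ (s ∪ U)) = fun U => Lf s \ U := by
      funext U
      ext y
      simp only [mem_sdiff, mem_union, not_or]
      constructor
      · rintro ⟨h1, h2, h3⟩
        exact ⟨h1, h3⟩
      · rintro ⟨h1, h2⟩
        exact ⟨h1, fun h3 => (Finset.disjoint_left.1 (hLf s hs) h1) h3, h2⟩
    show SGs _ _ _ _ ≤ SGx _ _ _ (cset (rS c T a b s) (fun U => Lf s \ (s ∪ U)) (t \ s))
    rw [e]
    exact le_of_eq rfl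

end net

end K

end R5
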