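import Pool.Agent.Work.MP_8b6acb_fs.Interface
import Pool.Agent.Work.MP_8b6acb_cap.MAINNET
import Pool.Agent.Work.MP_8b6acb_cap.NETE
import Pool.Agent.Work.MP_8b6acb_cap.NETX

/-! Block MAINNETK: the main network inequality for the capacity `q`, general kernels. -/

namespace R5

namespace K

open Finset MP_8b6acb_co

open MN in
theorem stmt_MAINNETK (α : Type) [Fintype α] [DecidableEq α] (hL : Stmt_LPARTK α)
    (hF : Stmt_FPARTK α) (hTy : Stmt_TYPEK α) (hMa : Stmt_MASS α) (hG : Stmt_GIBBS) :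
    Stmt_MAINNETK α := by
  intro c i j S T a b κ q χ χ' hnet hκ hq1 hmS hmT hMU hNU W hW hWpos
  have hNE := stmt_NETE α
  have hNX := stmt_NETX α
  have hqpos' : (0 : ℝ) < (q : ℝ) := by exact_mod_cast hq1
  have hij := hnet.hij
  have hl : 0 < j - i := by omega
  have hlR : ((j - i : ℕ) : ℝ) = (j : ℝ) - i := Nat.cast_sub hij.le
  have hlpos : (0 : ℝ) < (j : ℝ) - i := by rw [← hlR]; exact_mod_cast hl
  set E := netE c i j S T with hE
  set X := netX c i j with hX
  -- facts on pairs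
  have hpair : ∀ s ∈ S, ∀ t ∈ T.filter (fun t => s ⊆ t), ty c s ∅ = Lab.A ∧
      ty c s (t \ s) = Lab.B ∧ ((t \ s).card : ℝ) = (j : ℝ) - i ∧ (t \ s).Nonempty := by
    intro s hs t ht
    rw [mem_filter] at ht
    have hcard : (t \ s).card = j - i := by
      rw [card_sdiff_of_subset ht.2, hnet.cT t ht.1, hnet.cS s hs]
    refine ⟨?_, ?_, ?_, ?_⟩
    · unfold ty; rw [union_empty]; exact hnet.lS s hs
    · unfold ty; rw [union_sdiff_of_subset ht.2]; exact hnet.lT t ht.1
    · rw [hcard, hlR]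
    · rw [← card_pos, hcard]; exact hl
  -- step 1
  have step1 : ∀ s ∈ S, ∀ t ∈ T.filter (fun t => s ⊆ t),
      a s * b t * (VAL (ty c s) (t \ s) (SGx (ty c s) (t \ s) (rS c T a b s) (χ s t))
        (SGx (dual (ty c s) (t \ s)) (t \ s)
          (fun U g => NU c S a b t (s ∪ ((t \ s) \ insert g U)) / NU c S a b t (s ∪ ((t \ s) \ U)))
          (χ' tᶜ sᶜ)) +
        Real.log (((j : ℝ) - i) / (q : ℝ)) *
          (PEL (ty c s) (t \ s) + PEL (dual (ty c s) (t \ s)) (t \ s))) ≤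
      a s * b t * LV (ty c s) (t \ s) (rS c T a b s) (χ s t)
        (fun V => -Real.log (NU c S a b t (s ∪ V))) +
      a s * b t * LV (dual (ty c s) (t \ s)) (t \ s)
        (fun U g => NU c S a b t (s ∪ ((t \ s) \ insert g U)) / NU c S a b t (s ∪ ((t \ s) \ U)))
        (χ' tᶜ sᶜ)
        (fun U => -Real.log (MU c T a b s (s ∪ ((t \ s) \ U)))) +
      (Real.log κ - Real.log ((j : ℝ) - i)) * (a s * b t * Zt (ty c s) (t \ s)) +
      Real.log (((j : ℝ) - i) / (q : ℝ)) * (a s * b t *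
        (PEL (ty c s) (t \ s) + PEL (dual (ty c s) (t \ s)) (t \ s))) := by
    intro s hs t ht
    obtain ⟨h0, hD, hc, hne⟩ := hpair s hs t ht
    have ht' := mem_filter.1 ht
    have hst : s ∪ (t \ s) = t := union_sdiff_of_subset ht'.2
    have h := hTy (ty c s) (t \ s) (fun V => MU c T a b s (s ∪ V)) (fun V => NU c S a b t (s ∪ V))
      (χ s t) (χ' tᶜ sᶜ) h0 hD hne
      (fun V hV => MU_pos hnet hs ht'.1 (union_subset ht'.2 (hV.trans sdiff_subset)))
      (fun V _ => NU_pos hnet hs ht'.1 subset_union_left)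
    simp only [union_empty, hst, hc] at h
    have hr : (fun X g => MU c T a b s (s ∪ insert g X) / MU c T a b s (s ∪ X)) =
      rS c T a b s := rfl
    rw [hr] at h
    have h1 : Real.log (MU c T a b s s) ≤ Real.log κ :=
      Real.log_le_log (MU_pos hnet hs ht'.1 ht'.2) (hMU s hs)
    have h2 : Real.log (NU c S a b t t) ≤ Real.log κ :=
      Real.log_le_log (NU_pos hnet hs ht'.1 ht'.2) (hNU t ht'.1)
    have hl1 : (0 : ℝ) < (j : ℝ) - i + 1 := by linarith
    have h3 : ab (ty c s) (t \ s) ∅ / ((j : ℝ) - i + 1) * Real.log (MU c T a b s s) ≤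
        ab (ty c s) (t \ s) ∅ / ((j : ℝ) - i + 1) * Real.log κ :=
      mul_le_mul_of_nonneg_left h1 (div_nonneg (ab_nonneg _ _ _) hl1.le)
    have h4 : aw (ty c s) (t \ s) / ((j : ℝ) - i + 1) * Real.log (NU c S a b t t) ≤
        aw (ty c s) (t \ s) / ((j : ℝ) - i + 1) * Real.log κ :=
      mul_le_mul_of_nonneg_left h2 (div_nonneg (aw_nonneg _ _) hl1.le)
    have h5 : Zt (ty c s) (t \ s) = ab (ty c s) (t \ s) ∅ / ((j : ℝ) - i + 1) +
        aw (ty c s) (t \ s) / ((j : ℝ) - i + 1) := by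
      unfold Zt
      rw [hc, add_div, add_comm]
    have h6 : (0 : ℝ) ≤ a s * b t := (mul_pos (hnet.pa s hs) (hnet.pb t ht'.1)).le
    have h7 : VAL (ty c s) (t \ s) (SGx (ty c s) (t \ s) (rS c T a b s) (χ s t))
        (SGx (dual (ty c s) (t \ s)) (t \ s)
          (fun U g => NU c S a b t (s ∪ ((t \ s) \ insert g U)) / NU c S a b t (s ∪ ((t \ s) \ U)))
          (χ' tᶜ sᶜ)) ≤
        LV (ty c s) (t \ s) (rS c T a b s) (χ s t)
          (fun V => -Real.log (NU c S a b t (s ∪ V))) +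
        LV (dual (ty c s) (t \ s)) (t \ s)
          (fun U g => NU c S a b t (s ∪ ((t \ s) \ insert g U)) /
            NU c S a b t (s ∪ ((t \ s) \ U)))
          (χ' tᶜ sᶜ)
          (fun U => -Real.log (MU c T a b s (s ∪ ((t \ s) \ U)))) +
        (Real.log κ - Real.log ((j : ℝ) - i)) * Zt (ty c s) (t \ s) := by
      have h8 : (Real.log κ - Real.log ((j : ℝ) - i)) * Zt (ty c s) (t \ s) =
          ab (ty c s) (t \ s) ∅ / ((j : ℝ) - i + 1) * Real.log κ +
          aw (ty c s) (t \ s) / ((j : ℝ) - i + 1) * Real.log κ -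
          Zt (ty c s) (t \ s) * Real.log ((j : ℝ) - i) := by
        rw [sub_mul, h5]; ring
      rw [h8]
      linarith
    have h9 := mul_le_mul_of_nonneg_left h7 h6
    have h10 := add_le_add_left h9 (a s * b t * (Real.log (((j : ℝ) - i) / (q : ℝ)) *
          (PEL (ty c s) (t \ s) + PEL (dual (ty c s) (t \ s)) (t \ s))))
    refine (le_of_eq ?_).trans (h10.trans (le_of_eq ?_))
    · ring
    · ring
  -- step 2: sum over the pairs
  have step2 : ∑ s ∈ S, ∑ t ∈ T.filter (fun t => s ⊆ t), a s * b t *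
        (VAL (ty c s) (t \ s) (SGx (ty c s) (t \ s) (rS c T a b s) (χ s t))
        (SGx (dual (ty c s) (t \ s)) (t \ s)
          (fun U g => NU c S a b t (s ∪ ((t \ s) \ insert g U)) / NU c S a b t (s ∪ ((t \ s) \ U)))
          (χ' tᶜ sᶜ)) +
        Real.log (((j : ℝ) - i) / (q : ℝ)) *
          (PEL (ty c s) (t \ s) + PEL (dual (ty c s) (t \ s)) (t \ s))) ≤
      (∑ s ∈ S, ∑ t ∈ T.filter (fun t => s ⊆ t), a s * b t * LV (ty c s) (t \ s) (rS c T a b s) (χ s t)
        (fun V => -Real.log (NU c S a b t (s ∪ V)))) +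
      (∑ s ∈ S, ∑ t ∈ T.filter (fun t => s ⊆ t), a s * b t * LV (dual (ty c s) (t \ s)) (t \ s)
        (fun U g => NU c S a b t (s ∪ ((t \ s) \ insert g U)) / NU c S a b t (s ∪ ((t \ s) \ U)))
        (χ' tᶜ sᶜ)
        (fun U => -Real.log (MU c T a b s (s ∪ ((t \ s) \ U))))) +
      (Real.log κ - Real.log ((j : ℝ) - i)) * W +
      Real.log (((j : ℝ) - i) / (q : ℝ)) *
        (∑ s ∈ S, ∑ t ∈ T.filter (fun t => s ⊆ t), a s * b t *
          (PEL (ty c s) (t \ s) + PEL (dual (ty c s) (t \ s)) (t \ s))) := by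
    rw [hW, mul_sum (s := S) (a := Real.log κ - Real.log ((j : ℝ) - i)),
      mul_sum (s := S) (a := Real.log (((j : ℝ) - i) / (q : ℝ)))]
    rw [← sum_add_distrib, ← sum_add_distrib, ← sum_add_distrib]
    refine sum_le_sum fun s hs => ?_
    rw [mul_sum (a := Real.log κ - Real.log ((j : ℝ) - i)),
      mul_sum (a := Real.log (((j : ℝ) - i) / (q : ℝ)))]
    rw [← sum_add_distrib, ← sum_add_distrib, ← sum_add_distrib]
    exact sum_le_sum fun t ht => step1 s hs t ht
  have hLp := hL c i j S T a b χ hnet hmS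
  have hFp := hF c i j S T a b χ' hnet hmT
  rw [← hE, ← hX] at hLp hFp
  -- nonnegativity of the masses
  have hab : ∀ s ∈ S, ∀ t ∈ T, 0 ≤ a s * b t := fun s hs t ht =>
    (mul_pos (hnet.pa s hs) (hnet.pb t ht)).le
  have nWE : ∀ e : Finset α × α, 0 ≤ WE c S T a b e.1 e.2 := by
    intro e
    refine sum_nonneg fun s hs => sum_nonneg fun t ht => ?_
    rw [mem_filter] at hs ht
    exact mul_nonneg (hab s hs.1 t ht.1) (yLe_nn _ _
      (sdiff_subset_sdiff ((subset_insert _ _).trans ht.2) (Subset.refl _)))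
  have nWFE : ∀ e : Finset α × α, 0 ≤ WFE c S T a b e.1 e.2 := by
    intro e
    refine sum_nonneg fun s hs => sum_nonneg fun t ht => ?_
    rw [mem_filter] at hs ht
    exact mul_nonneg (hab s hs.1 t ht.1) (yFe_nn _ _
      (sdiff_subset_sdiff ((subset_insert _ _).trans ht.2) (Subset.refl _)))
  have nWX : ∀ v, 0 ≤ WX c S T a b v := by
    intro v
    refine sum_nonneg fun s hs => sum_nonneg fun t ht => ?_
    rw [mem_filter] at hs ht
    exact mul_nonneg (hab s hs.1 t ht.1) (yLv_nn _ _ _)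
  have nWFX : ∀ v, 0 ≤ WFX c S T a b v := by
    intro v
    refine sum_nonneg fun s hs => sum_nonneg fun t ht => ?_
    rw [mem_filter] at hs ht
    exact mul_nonneg (hab s hs.1 t ht.1) (yFv_nn _ _ _)
  -- total mass
  have hmass : (∑ e ∈ E, WE c S T a b e.1 e.2) + (∑ e ∈ E, WFE c S T a b e.1 e.2) +
      ((∑ v ∈ X, WX c S T a b v) + ∑ v ∈ X, WFX c S T a b v) = W ∧
      (∑ s ∈ S, ∑ t ∈ T.filter (fun t => s ⊆ t), a s * b t *
          (PEL (ty c s) (t \ s) + PEL (dual (ty c s) (t \ s)) (t \ s))) =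
      (∑ e ∈ E, WE c S T a b e.1 e.2) + (∑ e ∈ E, WFE c S T a b e.1 e.2) := by
    have e1 : ∑ e ∈ E, WE c S T a b e.1 e.2 = ∑ s ∈ S, ∑ t ∈ T.filter (fun t => s ⊆ t),
        ∑ V ∈ (t \ s).powerset, ∑ x ∈ (t \ s) \ V, a s * b t * yLe (ty c s) (t \ s) V x := by
      unfold WE
      rw [hE, hNE c i j S T a b hnet (fun s t V x => a s * b t * yLe (ty c s) (t \ s) V x)]
      refine sum_congr rfl fun s _ => sum_congr rfl fun t _ => sum_congr rfl fun V _ =>
        sum_congr rfl fun x _ => ?_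
      split_ifs with h
      · rfl
      · unfold yLe; rw [if_neg h, mul_zero]
    have e2 : ∑ e ∈ E, WFE c S T a b e.1 e.2 = ∑ s ∈ S, ∑ t ∈ T.filter (fun t => s ⊆ t),
        ∑ V ∈ (t \ s).powerset, ∑ x ∈ (t \ s) \ V, a s * b t * yFe (ty c s) (t \ s) V x := by
      unfold WFE
      rw [hE, hNE c i j S T a b hnet (fun s t V x => a s * b t * yFe (ty c s) (t \ s) V x)]
      refine sum_congr rfl fun s _ => sum_congr rfl fun t _ => sum_congr rfl fun V _ =>
        sum_congr rfl fun x _ => ?_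
      split_ifs with h
      · rfl
      · unfold yFe; rw [if_neg h, mul_zero]
    have e3 : ∑ v ∈ X, WX c S T a b v = ∑ s ∈ S, ∑ t ∈ T.filter (fun t => s ⊆ t),
        ∑ V ∈ (t \ s).powerset, a s * b t * yLv (ty c s) (t \ s) V := by
      unfold WX
      rw [hX, hNX c i j S T a b hnet (fun s t V => a s * b t * yLv (ty c s) (t \ s) V)]
      refine sum_congr rfl fun s _ => sum_congr rfl fun t _ => sum_congr rfl fun V _ => ?_
      split_ifs with h
      · rfl
      · unfold yLv; rw [if_neg h, mul_zero]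
    have e4 : ∑ v ∈ X, WFX c S T a b v = ∑ s ∈ S, ∑ t ∈ T.filter (fun t => s ⊆ t),
        ∑ V ∈ (t \ s).powerset, a s * b t * yFv (ty c s) (t \ s) V := by
      unfold WFX
      rw [hX, hNX c i j S T a b hnet (fun s t V => a s * b t * yFv (ty c s) (t \ s) V)]
      refine sum_congr rfl fun s _ => sum_congr rfl fun t _ => sum_congr rfl fun V _ => ?_
      split_ifs with h
      · rfl
      · unfold yFv; rw [if_neg h, mul_zero]
    constructor
    · rw [e1, e2, e3, e4, hW, ← sum_add_distrib, ← sum_add_distrib, ← sum_add_distrib]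
      refine sum_congr rfl fun s hs => ?_
      rw [← sum_add_distrib, ← sum_add_distrib, ← sum_add_distrib]
      refine sum_congr rfl fun t ht => ?_
      obtain ⟨h0, hD, -, -⟩ := hpair s hs t ht
      rw [← tot hMa (ty c s) (t \ s) h0 hD]
      simp only [← mul_sum]
      ring
    · rw [e1, e2, ← sum_add_distrib]
      refine sum_congr rfl fun s hs => ?_
      rw [← sum_add_distrib]
      refine sum_congr rfl fun t ht => ?_
      have e5 : PEL (dual (ty c s) (t \ s)) (t \ s) =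
          ∑ V ∈ (t \ s).powerset, ∑ x ∈ (t \ s) \ V, yFe (ty c s) (t \ s) V x := by
        unfold PEL
        rw [← sum_edge_compl]
        refine sum_congr rfl fun V hV => sum_congr rfl fun x hx => ?_
        exact yLe_dual (mem_powerset.1 hV) hx
      rw [e5]
      unfold PEL
      simp only [← mul_sum]
      ring
  obtain ⟨hmass, hEM⟩ := hmass
  set EM : ℝ := ∑ s ∈ S, ∑ t ∈ T.filter (fun t => s ⊆ t), a s * b t *
          (PEL (ty c s) (t \ s) + PEL (dual (ty c s) (t \ s)) (t \ s)) with hEMdef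
  -- Gibbs
  have cE : ∀ e ∈ E, (i : ℝ) ≤ e.1.card ∧ (e.1.card : ℝ) + 1 ≤ j := by
    intro e he
    rw [hE] at he
    unfold netE at he
    rw [mem_filter] at he
    obtain ⟨-, h2, h3, -, h5, -⟩ := he
    have h7 : (insert e.2 e.1).card = e.1.card + 1 := card_insert_of_notMem h2
    constructor
    · rcases h3 with h3 | h3
      · rw [hnet.cS _ h3]
      · rw [mem_Mid] at h3; exact_mod_cast h3.1.le
    · rcases h5 with h5 | h5
      · rw [mem_Mid, h7] at h5; exact_mod_cast h5.2.le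
      · have := hnet.cT _ h5
        rw [h7] at this
        rw [← this]; push_cast; exact le_rfl
  have cX : ∀ v ∈ X, (i : ℝ) < v.card ∧ (v.card : ℝ) < j := by
    intro v hv
    rw [hX] at hv
    unfold netX at hv
    rw [mem_filter, mem_Mid] at hv
    exact ⟨by exact_mod_cast hv.1.1, by exact_mod_cast hv.1.2⟩
  have hl1 : (0 : ℝ) < (j : ℝ) - i + 1 := by linarith
  set K : Finset (((Finset α × α) ⊕ (Finset α × α)) ⊕ (Finset α ⊕ Finset α)) :=
    (E.disjSum E).disjSum (X.disjSum X) with hK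
  let w : ((Finset α × α) ⊕ (Finset α × α)) ⊕ (Finset α ⊕ Finset α) → ℝ :=
    Sum.elim (Sum.elim (fun e => WE c S T a b e.1 e.2) (fun e => WFE c S T a b e.1 e.2))
      (Sum.elim (fun v => WX c S T a b v) (fun v => WFX c S T a b v))
  let cw : ((Finset α × α) ⊕ (Finset α × α)) ⊕ (Finset α ⊕ Finset α) → ℝ :=
    Sum.elim (Sum.elim (fun e => ((e.1.card : ℝ) - i + 1) / ((j : ℝ) - i + 1))
        (fun e => ((j : ℝ) - e.1.card) / ((j : ℝ) - i + 1)))
      (Sum.elim (fun v => (q : ℝ) * ((v.card : ℝ) - i) / ((j : ℝ) - i))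
        (fun v => (q : ℝ) * ((j : ℝ) - v.card) / ((j : ℝ) - i)))
  have hsum : ∀ f : ((Finset α × α) ⊕ (Finset α × α)) ⊕ (Finset α ⊕ Finset α) → ℝ,
      ∑ k ∈ K, f k = (∑ e ∈ E, f (Sum.inl (Sum.inl e))) + (∑ e ∈ E, f (Sum.inl (Sum.inr e))) +
        ((∑ v ∈ X, f (Sum.inr (Sum.inl v))) + ∑ v ∈ X, f (Sum.inr (Sum.inr v))) := by
    intro f
    rw [hK, sum_disjSum, sum_disjSum, sum_disjSum]
  have hqpos : ∀ k ∈ K, 0 < cw k := by
    rintro ((e | e) | (v | v)) hk
    · have he : e ∈ E := by simpa [hK] using hk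
      have := cE e he
      exact div_pos (by linarith [this.1]) hl1
    · have he : e ∈ E := by simpa [hK] using hk
      have := cE e he
      exact div_pos (by linarith [this.2]) hl1
    · have hv : v ∈ X := by simpa [hK] using hk
      have := cX v hv
      show 0 < (q : ℝ) * ((v.card : ℝ) - i) / ((j : ℝ) - i)
      exact div_pos (mul_pos hqpos' (by linarith [this.1])) hlpos
    · have hv : v ∈ X := by simpa [hK] using hk
      have := cX v hv
      show 0 < (q : ℝ) * ((j : ℝ) - v.card) / ((j : ℝ) - i)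
      exact div_pos (mul_pos hqpos' (by linarith [this.2])) hlpos
  have hwnn : ∀ k ∈ K, 0 ≤ w k := by
    rintro ((e | e) | (v | v)) _
    · exact nWE e
    · exact nWFE e
    · exact nWX v
    · exact nWFX v
  have hGi := hG _ K w cw hwnn (fun k hk => (hqpos k hk).le) (fun k hk _ => hqpos k hk)
  have hwsum : ∑ k ∈ K, w k = W := by rw [hsum]; exact hmass
  set C : ℝ := (E.card : ℝ) + (q : ℝ) * (X.card : ℝ) with hC
  have hqsum : ∑ k ∈ K, cw k = C := by
    rw [hsum]
    show (∑ e ∈ E, ((e.1.card : ℝ) - i + 1) / ((j : ℝ) - i + 1)) +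
      (∑ e ∈ E, ((j : ℝ) - e.1.card) / ((j : ℝ) - i + 1)) +
      ((∑ v ∈ X, ((q : ℝ) * ((v.card : ℝ) - i) / ((j : ℝ) - i))) +
        ∑ v ∈ X, ((q : ℝ) * ((j : ℝ) - v.card) / ((j : ℝ) - i))) = C
    rw [← sum_add_distrib, ← sum_add_distrib]
    have e1 : ∑ e ∈ E, (((e.1.card : ℝ) - i + 1) / ((j : ℝ) - i + 1) +
        ((j : ℝ) - e.1.card) / ((j : ℝ) - i + 1)) = E.card := by
      rw [card_eq_sum_ones, Nat.cast_sum]
      refine sum_congr rfl fun e _ => ?_
      push_cast
      field_simp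
      ring
    have e2 : ∑ v ∈ X, ((q : ℝ) * ((v.card : ℝ) - i) / ((j : ℝ) - i) +
        (q : ℝ) * ((j : ℝ) - v.card) / ((j : ℝ) - i)) = (q : ℝ) * (X.card : ℝ) := by
      rw [mul_comm, ← nsmul_eq_mul, ← sum_const]
      refine sum_congr rfl fun v _ => ?_
      field_simp
      ring
    rw [e1, e2]
  have hwlog : ∑ k ∈ K, w k * Real.log (cw k / w k) =
      ((∑ e ∈ E, (WE c S T a b e.1 e.2 *
        Real.log (((e.1.card : ℝ) - i + 1) / ((j : ℝ) - i + 1)) -
        WE c S T a b e.1 e.2 * Real.log (WE c S T a b e.1 e.2))) +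
      ∑ v ∈ X, (WX c S T a b v *
        (Real.log ((j : ℝ) - i) + Real.log (((v.card : ℝ) - i) / ((j : ℝ) - i))) -
        WX c S T a b v * Real.log (WX c S T a b v))) +
      ((∑ e ∈ E, (WFE c S T a b e.1 e.2 *
        Real.log (((j : ℝ) - e.1.card) / ((j : ℝ) - i + 1)) -
        WFE c S T a b e.1 e.2 * Real.log (WFE c S T a b e.1 e.2))) +
      ∑ v ∈ X, (WFX c S T a b v *
        (Real.log ((j : ℝ) - i) + Real.log (((j : ℝ) - v.card) / ((j : ℝ) - i))) -
        WFX c S T a b v * Real.log (WFX c S T a b v))) -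
      Real.log (((j : ℝ) - i) / (q : ℝ)) *
        ((∑ v ∈ X, WX c S T a b v) + ∑ v ∈ X, WFX c S T a b v) := by
    rw [sum_congr rfl (fun k hk => mul_log_div (hwnn k hk) (hqpos k hk)), hsum]
    have e1 : ∀ v ∈ X, Real.log ((q : ℝ) * ((v.card : ℝ) - i) / ((j : ℝ) - i)) =
        Real.log ((j : ℝ) - i) + Real.log (((v.card : ℝ) - i) / ((j : ℝ) - i)) -
        Real.log (((j : ℝ) - i) / (q : ℝ)) := by
      intro v hv
      have h1 := (cX v hv).1
      have h2 : (0 : ℝ) < (v.card : ℝ) - i := by linarith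
      rw [Real.log_div (mul_pos hqpos' h2).ne' hlpos.ne', Real.log_mul hqpos'.ne' h2.ne',
        Real.log_div h2.ne' hlpos.ne', Real.log_div hlpos.ne' hqpos'.ne']
      ring
    have e2 : ∀ v ∈ X, Real.log ((q : ℝ) * ((j : ℝ) - v.card) / ((j : ℝ) - i)) =
        Real.log ((j : ℝ) - i) + Real.log (((j : ℝ) - v.card) / ((j : ℝ) - i)) -
        Real.log (((j : ℝ) - i) / (q : ℝ)) := by
      intro v hv
      have h1 := (cX v hv).2
      have h2 : (0 : ℝ) < (j : ℝ) - v.card := by linarith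
      rw [Real.log_div (mul_pos hqpos' h2).ne' hlpos.ne', Real.log_mul hqpos'.ne' h2.ne',
        Real.log_div h2.ne' hlpos.ne', Real.log_div hlpos.ne' hqpos'.ne']
      ring
    have e3 : ∑ v ∈ X, (WX c S T a b v *
        Real.log ((q : ℝ) * ((v.card : ℝ) - i) / ((j : ℝ) - i)) -
        WX c S T a b v * Real.log (WX c S T a b v)) = (∑ v ∈ X, (WX c S T a b v *
        (Real.log ((j : ℝ) - i) + Real.log (((v.card : ℝ) - i) / ((j : ℝ) - i))) -
        WX c S T a b v * Real.log (WX c S T a b v))) -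
        Real.log (((j : ℝ) - i) / (q : ℝ)) * ∑ v ∈ X, WX c S T a b v := by
      rw [mul_sum, ← sum_sub_distrib]
      refine sum_congr rfl fun v hv => ?_
      rw [e1 v hv]
      ring
    have e4 : ∑ v ∈ X, (WFX c S T a b v *
        Real.log ((q : ℝ) * ((j : ℝ) - v.card) / ((j : ℝ) - i)) -
        WFX c S T a b v * Real.log (WFX c S T a b v)) = (∑ v ∈ X, (WFX c S T a b v *
        (Real.log ((j : ℝ) - i) + Real.log (((j : ℝ) - v.card) / ((j : ℝ) - i))) -
        WFX c S T a b v * Real.log (WFX c S T a b v))) -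
        Real.log (((j : ℝ) - i) / (q : ℝ)) * ∑ v ∈ X, WFX c S T a b v := by
      rw [mul_sum, ← sum_sub_distrib]
      refine sum_congr rfl fun v hv => ?_
      rw [e2 v hv]
      ring
    have e5 : (∑ e ∈ E, (WE c S T a b e.1 e.2 *
        Real.log (((e.1.card : ℝ) - i + 1) / ((j : ℝ) - i + 1)) -
        WE c S T a b e.1 e.2 * Real.log (WE c S T a b e.1 e.2))) +
      (∑ e ∈ E, (WFE c S T a b e.1 e.2 *
        Real.log (((j : ℝ) - e.1.card) / ((j : ℝ) - i + 1)) -
        WFE c S T a b e.1 e.2 * Real.log (WFE c S T a b e.1 e.2))) +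
      ((∑ v ∈ X, (WX c S T a b v *
        Real.log ((q : ℝ) * ((v.card : ℝ) - i) / ((j : ℝ) - i)) -
        WX c S T a b v * Real.log (WX c S T a b v))) +
      ∑ v ∈ X, (WFX c S T a b v *
        Real.log ((q : ℝ) * ((j : ℝ) - v.card) / ((j : ℝ) - i)) -
        WFX c S T a b v * Real.log (WFX c S T a b v))) = ((∑ e ∈ E, (WE c S T a b e.1 e.2 *
        Real.log (((e.1.card : ℝ) - i + 1) / ((j : ℝ) - i + 1)) -
        WE c S T a b e.1 e.2 * Real.log (WE c S T a b e.1 e.2))) +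
      ∑ v ∈ X, (WX c S T a b v *
        (Real.log ((j : ℝ) - i) + Real.log (((v.card : ℝ) - i) / ((j : ℝ) - i))) -
        WX c S T a b v * Real.log (WX c S T a b v))) +
      ((∑ e ∈ E, (WFE c S T a b e.1 e.2 *
        Real.log (((j : ℝ) - e.1.card) / ((j : ℝ) - i + 1)) -
        WFE c S T a b e.1 e.2 * Real.log (WFE c S T a b e.1 e.2))) +
      ∑ v ∈ X, (WFX c S T a b v *
        (Real.log ((j : ℝ) - i) + Real.log (((j : ℝ) - v.card) / ((j : ℝ) - i))) -
        WFX c S T a b v * Real.log (WFX c S T a b v))) -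
      Real.log (((j : ℝ) - i) / (q : ℝ)) *
        ((∑ v ∈ X, WX c S T a b v) + ∑ v ∈ X, WFX c S T a b v) := by
      rw [e3, e4]
      ring
    exact e5
  rw [hwsum, hqsum, hwlog] at hGi
  -- C > 0
  have hCpos : 0 < C := by
    by_contra h
    have hE0 : (0 : ℝ) ≤ E.card := Nat.cast_nonneg _
    have hX0 : (0 : ℝ) ≤ (q : ℝ) * (X.card : ℝ) := mul_nonneg hqpos'.le (Nat.cast_nonneg _)
    have h1 : (E.card : ℝ) = 0 := by linarith
    have h2 : (q : ℝ) * (X.card : ℝ) = 0 := by linarith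
    have h3 : E = ∅ := by rw [← card_eq_zero]; exact_mod_cast h1
    have h4 : X = ∅ := by
      rw [← card_eq_zero]
      rcases mul_eq_zero.1 h2 with h5 | h5
      · linarith
      · exact_mod_cast h5
    rw [h3, h4] at hmass
    simp at hmass
    linarith
  have hfin : Real.log (κ * C / ((q : ℝ) * W)) =
      Real.log κ - Real.log (q : ℝ) + Real.log (C / W) := by
    rw [Real.log_div (mul_pos hκ hCpos).ne' (mul_pos hqpos' hWpos).ne',
      Real.log_mul hκ.ne' hCpos.ne', Real.log_mul hqpos'.ne' hWpos.ne',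
      Real.log_div hCpos.ne' hWpos.ne']
    ring
  rw [hfin]
  have h1 : W * (Real.log κ - Real.log (q : ℝ) + Real.log (C / W)) =
      (Real.log κ - Real.log ((j : ℝ) - i)) * W + W * Real.log (C / W) +
      Real.log (((j : ℝ) - i) / (q : ℝ)) * EM + Real.log (((j : ℝ) - i) / (q : ℝ)) *
        ((∑ v ∈ X, WX c S T a b v) + ∑ v ∈ X, WFX c S T a b v) := by
    have h2 : (∑ v ∈ X, WX c S T a b v) + ∑ v ∈ X, WFX c S T a b v = W - EM := by
      rw [hEM]; linarith
    rw [h2, Real.log_div hlpos.ne' hqpos'.ne']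
    ring
  rw [h1]
  linarith

end K

end R5
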