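import Pool.Agent.Work.MP_8b6acb_fs.Interface
import Pool.Agent.Work.MP_8b6acb_fq.TYPEQ
import Pool.Agent.Work.MP_8b6acb_cap.YSUM

/-! Block TYPEK: the typewise identity for general kernels, from the one of the chain engine. -/

namespace R5

namespace K

open Finset

variable {α : Type} [DecidableEq α]

theorem yLe_bw {τ : Finset α → Lab} {D V : Finset α} {x : α} (h0 : τ ∅ = Lab.A) :
    yLe τ D V x * Real.log (Zt τ D / yLe τ D V x) =
      yLe τ D V x * Real.log (Zt τ D / y1e τ D V) -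
        yLe τ D V x * Real.log (bw τ D (insert x V)) := by
  by_cases hy : yLe τ D V x = 0
  · rw [hy]; ring
  have hE : isE τ V x := by
    by_contra he
    apply hy
    unfold yLe
    rw [if_neg he]
  have e1 : yLe τ D V x = y1e τ D V * bw τ D (insert x V) := by
    unfold yLe y1e
    rw [if_pos hE]
    ring
  have hZ := TypeAux.Zt_pos (D := D) h0
  have h1 : y1e τ D V ≠ 0 := fun h => hy (by rw [e1, h, zero_mul])
  have h2 : bw τ D (insert x V) ≠ 0 := fun h => hy (by rw [e1, h, mul_zero])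
  have h3 : Real.log (Zt τ D / yLe τ D V x) =
      Real.log (Zt τ D / y1e τ D V) - Real.log (bw τ D (insert x V)) := by
    rw [e1, Real.log_div hZ.ne' (mul_ne_zero h1 h2), Real.log_mul h1 h2,
      Real.log_div hZ.ne' h1]
    ring
  rw [h3]
  ring

theorem yLv_bw {τ : Finset α → Lab} {D V : Finset α} (h0 : τ ∅ = Lab.A) :
    yLv τ D V * Real.log (Zt τ D / yLv τ D V) =
      yLv τ D V * Real.log (Zt τ D / y1v τ D V) - yLv τ D V * Real.log (bwb τ D V) := by
  by_cases hy : yLv τ D V = 0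
  · rw [hy]; ring
  have hE : τ V = Lab.X := by
    by_contra he
    apply hy
    unfold yLv
    rw [if_neg he]
  have e1 : yLv τ D V = y1v τ D V * bwb τ D V := by
    unfold yLv y1v
    rw [if_pos hE]
    ring
  have hZ := TypeAux.Zt_pos (D := D) h0
  have h1 : y1v τ D V ≠ 0 := fun h => hy (by rw [e1, h, zero_mul])
  have h2 : bwb τ D V ≠ 0 := fun h => hy (by rw [e1, h, mul_zero])
  have h3 : Real.log (Zt τ D / yLv τ D V) =
      Real.log (Zt τ D / y1v τ D V) - Real.log (bwb τ D V) := by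
    rw [e1, Real.log_div hZ.ne' (mul_ne_zero h1 h2), Real.log_mul h1 h2,
      Real.log_div hZ.ne' h1]
    ring
  rw [h3]
  ring

theorem gm_empty (D U : Finset α) : gm (fun _ : Finset α => (∅ : Finset α)) D U = 0 := by
  unfold gm gg
  simp

/-- Comparison of the set-level value with the chain-level value (no marks). -/
theorem LV_sub (hY : Stmt_YSUM α) {τ : Finset α → Lab} {D : Finset α} (h0 : τ ∅ = Lab.A)
    (ρ : Finset α → α → ℝ) (χ : Finset α → Finset α → ℝ) (H : Finset α → ℝ) :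
    LV τ D ρ χ H = LVc τ D ρ (fun _ => ∅) H + (SGx τ D ρ χ - SGc τ D ρ (fun _ => ∅)) := by
  -- the common difference
  obtain ⟨P, hP⟩ : ∃ P : ℝ, P = ∑ X ∈ D.powerset,
    ((∑ V ∈ D.powerset, ∑ x ∈ D \ V, (pe τ D X V x * χ X (insert x V) -
        pe1 τ D X V x * ec τ D (SS ρ (fun _ => ∅) D X (insert x V)) (insert x V))) +
      ∑ V ∈ D.powerset, (pv τ D X V * χ X V -
        pv1 τ D X V * ev τ D (SS ρ (fun _ => ∅) D X V) V)) := ⟨_, rfl⟩
  obtain ⟨B1, hB1⟩ : ∃ B1 : ℝ, B1 = ∑ V ∈ D.powerset, ∑ x ∈ D \ V,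
    yLe τ D V x * Real.log (bw τ D (insert x V)) := ⟨_, rfl⟩
  obtain ⟨B2, hB2⟩ : ∃ B2 : ℝ, B2 = ∑ V ∈ D.powerset, yLv τ D V * Real.log (bwb τ D V) :=
    ⟨_, rfl⟩
  have hB1' : B1 = ∑ X ∈ D.powerset, ∑ V ∈ D.powerset, ∑ x ∈ D \ V,
      pe τ D X V x * Real.log (bw τ D (insert x V)) := by
    rw [hB1, sum_comm]
    refine sum_congr rfl fun V hV => ?_
    rw [sum_comm]
    refine sum_congr rfl fun x hx => ?_
    rw [← sum_mul, (hY τ D V (mem_powerset.1 hV)).1 x hx]
  have hB2' : B2 = ∑ X ∈ D.powerset, ∑ V ∈ D.powerset,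
      pv τ D X V * Real.log (bwb τ D V) := by
    rw [hB2, sum_comm]
    refine sum_congr rfl fun V hV => ?_
    rw [← sum_mul, (hY τ D V (mem_powerset.1 hV)).2]
  have e1 : SGx τ D ρ χ = SGc τ D ρ (fun _ => ∅) + P - (B1 + B2) := by
    rw [hP, hB1', hB2', ← sum_add_distrib]
    unfold SGx SGc
    rw [← sum_add_distrib, ← sum_sub_distrib]
    refine sum_congr rfl fun X _ => ?_
    have f1 : ∑ V ∈ D.powerset, ∑ x ∈ D \ V,
        pe τ D X V x * (χ X (insert x V) - Real.log (bw τ D (insert x V))) =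
        (∑ V ∈ D.powerset, ∑ x ∈ D \ V,
          (pe1 τ D X V x * ec τ D (SS ρ (fun _ => ∅) D X (insert x V)) (insert x V) +
            pe τ D X V x * gm (fun _ => ∅) D (insert x V))) +
        (∑ V ∈ D.powerset, ∑ x ∈ D \ V, (pe τ D X V x * χ X (insert x V) -
          pe1 τ D X V x * ec τ D (SS ρ (fun _ => ∅) D X (insert x V)) (insert x V))) -
        ∑ V ∈ D.powerset, ∑ x ∈ D \ V, pe τ D X V x * Real.log (bw τ D (insert x V)) := by
      rw [← sum_add_distrib, ← sum_sub_distrib]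
      refine sum_congr rfl fun V _ => ?_
      rw [← sum_add_distrib, ← sum_sub_distrib]
      refine sum_congr rfl fun x _ => ?_
      rw [gm_empty]
      ring
    have f2 : ∑ V ∈ D.powerset, pv τ D X V * (χ X V - Real.log (bwb τ D V)) =
        (∑ V ∈ D.powerset, (pv1 τ D X V * ev τ D (SS ρ (fun _ => ∅) D X V) V +
          pv τ D X V * gm (fun _ => ∅) D V)) +
        (∑ V ∈ D.powerset, (pv τ D X V * χ X V -
          pv1 τ D X V * ev τ D (SS ρ (fun _ => ∅) D X V) V)) -
        ∑ V ∈ D.powerset, pv τ D X V * Real.log (bwb τ D V) := by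
      rw [← sum_add_distrib, ← sum_sub_distrib]
      refine sum_congr rfl fun V _ => ?_
      rw [gm_empty]
      ring
    rw [f1, f2]
    ring
  have e2 : LV τ D ρ χ H = LVc τ D ρ (fun _ => ∅) H + P - (B1 + B2) := by
    rw [hP, hB1, hB2]
    unfold LV LVc
    have f0 : (∑ X ∈ D.powerset, ((∑ V ∈ D.powerset, ∑ x ∈ D \ V,
          pe τ D X V x * KV ρ χ D X (insert x V)) +
        ∑ V ∈ D.powerset, pv τ D X V * KV ρ χ D X V)) =
        (∑ X ∈ D.powerset,
          ((∑ V ∈ D.powerset, ∑ x ∈ D \ V,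
            (pe τ D X V x * R5.KV ρ (fun _ => ∅) D X (insert x V) +
              pe1 τ D X V x * ec τ D (SS ρ (fun _ => ∅) D X (insert x V)) (insert x V))) +
          ∑ V ∈ D.powerset, (pv τ D X V * R5.KV ρ (fun _ => ∅) D X V +
              pv1 τ D X V * ev τ D (SS ρ (fun _ => ∅) D X V) V))) +
        ∑ X ∈ D.powerset,
          ((∑ V ∈ D.powerset, ∑ x ∈ D \ V, (pe τ D X V x * χ X (insert x V) -
            pe1 τ D X V x * ec τ D (SS ρ (fun _ => ∅) D X (insert x V)) (insert x V))) +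
          ∑ V ∈ D.powerset, (pv τ D X V * χ X V -
            pv1 τ D X V * ev τ D (SS ρ (fun _ => ∅) D X V) V)) := by
      rw [← sum_add_distrib]
      refine sum_congr rfl fun X _ => ?_
      have g1 : (∑ V ∈ D.powerset, ∑ x ∈ D \ V, pe τ D X V x * KV ρ χ D X (insert x V)) =
          (∑ V ∈ D.powerset, ∑ x ∈ D \ V,
            (pe τ D X V x * R5.KV ρ (fun _ => ∅) D X (insert x V) +
              pe1 τ D X V x * ec τ D (SS ρ (fun _ => ∅) D X (insert x V)) (insert x V))) +
          ∑ V ∈ D.powerset, ∑ x ∈ D \ V, (pe τ D X V x * χ X (insert x V) -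
            pe1 τ D X V x * ec τ D (SS ρ (fun _ => ∅) D X (insert x V)) (insert x V)) := by
        rw [← sum_add_distrib]
        refine sum_congr rfl fun V _ => ?_
        rw [← sum_add_distrib]
        refine sum_congr rfl fun x _ => ?_
        unfold KV R5.KV
        rw [gm_empty]
        ring
      have g2 : (∑ V ∈ D.powerset, pv τ D X V * KV ρ χ D X V) =
          (∑ V ∈ D.powerset, (pv τ D X V * R5.KV ρ (fun _ => ∅) D X V +
              pv1 τ D X V * ev τ D (SS ρ (fun _ => ∅) D X V) V)) +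
          ∑ V ∈ D.powerset, (pv τ D X V * χ X V -
            pv1 τ D X V * ev τ D (SS ρ (fun _ => ∅) D X V) V) := by
        rw [← sum_add_distrib]
        refine sum_congr rfl fun V _ => ?_
        unfold KV R5.KV
        rw [gm_empty]
        ring
      rw [g1, g2]
      ring
    have f1 : (∑ V ∈ D.powerset, ∑ x ∈ D \ V, yLe τ D V x *
          (Real.log (((V.card : ℝ) + 1) / ((D.card : ℝ) + 1)) + H V +
            Real.log (Zt τ D / yLe τ D V x))) =
        (∑ V ∈ D.powerset, ∑ x ∈ D \ V, yLe τ D V x *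
          (Real.log (((V.card : ℝ) + 1) / ((D.card : ℝ) + 1)) + H V +
            Real.log (Zt τ D / y1e τ D V))) -
        ∑ V ∈ D.powerset, ∑ x ∈ D \ V, yLe τ D V x * Real.log (bw τ D (insert x V)) := by
      rw [← sum_sub_distrib]
      refine sum_congr rfl fun V _ => ?_
      rw [← sum_sub_distrib]
      refine sum_congr rfl fun x _ => ?_
      rw [mul_add, yLe_bw h0]
      ring
    have f2 : (∑ V ∈ D.powerset, yLv τ D V *
          (Real.log (D.card : ℝ) + Real.log ((V.card : ℝ) / (D.card : ℝ)) + H V +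
            Real.log (Zt τ D / yLv τ D V))) =
        (∑ V ∈ D.powerset, yLv τ D V *
          (Real.log (D.card : ℝ) + Real.log ((V.card : ℝ) / (D.card : ℝ)) + H V +
            Real.log (Zt τ D / y1v τ D V))) -
        ∑ V ∈ D.powerset, yLv τ D V * Real.log (bwb τ D V) := by
      rw [← sum_sub_distrib]
      refine sum_congr rfl fun V _ => ?_
      rw [mul_add, yLv_bw h0]
      ring
    rw [f0, f1, f2]
    ring
  rw [e1, e2]
  ring

theorem stmt_TYPEK (hT : Stmt_TYPEQ α) (hY : Stmt_YSUM α) : Stmt_TYPEK α := by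
  intro τ D μ ν χ χ' h0 hD hne hμ hν
  have h := hT τ D μ ν (fun _ => ∅) (fun _ => ∅) h0 hD hne hμ hν
  have h0' : dual τ D ∅ = Lab.A := by
    unfold dual
    rw [sdiff_empty, hD]
    rfl
  rw [LV_sub hY h0, LV_sub hY h0']
  unfold VALc at h
  unfold VAL
  linarith

end K

end R5
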