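import Pool.Agent.Work.MP_8b6acb_fq.Asm
import Pool.Agent.Work.MP_8b6acb_fs.CUTK
import Pool.Agent.Work.MP_8b6acb_fs.FPARTK
import Pool.Agent.Work.MP_8b6acb_fs.KSET
import Pool.Agent.Work.MP_8b6acb_fs.LPARTK
import Pool.Agent.Work.MP_8b6acb_fs.MAINNETK
import Pool.Agent.Work.MP_8b6acb_fs.PPK
import Pool.Agent.Work.MP_8b6acb_fs.TYPEK

/-! # The set-level engine: assembly of the blocks -/

namespace R5

namespace K

open MP_8b6acb_co

theorem fs_type (α : Type) [DecidableEq α] : Stmt_TYPEK α := stmt_TYPEK (fq_type α) stmt_YSUM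

theorem fs_lpart (α : Type) [Fintype α] [DecidableEq α] : Stmt_LPARTK α :=
  stmt_LPARTK α (stmt_ONE stmt_GIBBS) stmt_YSUM (stmt_NETE α) (stmt_NETX α)

theorem fs_mainnet (α : Type) [Fintype α] [DecidableEq α] : Stmt_MAINNETK α :=
  stmt_MAINNETK α (fs_lpart α) (stmt_FPARTK α (fs_lpart α)) (fs_type α)
    (stmt_MASS stmt_GMASS) stmt_GIBBS

/-- Every legal side functional gives the cut condition. -/
theorem fs_pp {α : Type} [Fintype α] [DecidableEq α] {v : Side α} (hv : Legal v) :
    Stmt_PPK v :=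
  stmt_PPK (stmt_CUTK hv (fs_mainnet α) stmt_HALLM) (stmt_MINC α)

theorem fs_legal (α : Type) [Fintype α] [DecidableEq α] : Legal (vset (α := α)) :=
  legal_vset (fq_ksum α) (stmt_KLOG α)

/-- **The engine for a legal side functional.** -/
theorem engineK (d i j q : ℕ) (v : Side (Fin d)) (hv : Legal v) (hij : i + 2 ≤ j) (h1 : 1 ≤ q)
    (hq : q ≤ j - i) (hTI : Stmt_TIV v (j - i) q) (S T : Finset (Vtx d))
    (hS : ∀ s ∈ S, wt s = i) (hT : ∀ t ∈ T, wt t = j) (hST : Matched S T) :
    HasEdgeDisjointLR q S T :=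
  hasEdgeDisjointLR (fs_pp hv i j q hij h1 hq hTI) (by omega) S T hS hT hST

/-- **The engine for the set kernel.** The typewise inequality implies the linking property. -/
theorem engineS : Stmt_ENGINES := by
  intro d i j q hij h1 hq hTI S T hS hT hST
  exact engineK d i j q vset (fs_legal (Fin d)) hij h1 hq hTI S T hS hT hST

end K

end R5
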