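import Pool.Agent.Work.MP_8b6acb_fq.Interface

/-!
# Set-level values with general kernels (definitions)

Everything of `MP_8b6acb_cap` and `MP_8b6acb_fq` (namespace `R5`) is reused.  New (namespace
`R5.K`): the decoder of a star uses ANY kernel on the sets; the logarithm of the kernel is
`KV ρ χ D X U`, where `χ X U` is the extra part (star `X`, upper set `U` of the object, everything
relative to the source, for the sink `D`).  The value of a side is `SGx`, with the term
`- log bw` (minus the logarithm of the fraction of good orders).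

The set kernel: `r!` times the product of the densities over `n ^ r`, times the boosts
`b / (b - i)` of the marks.  Its side value is `SGs`.
-/

namespace R5

namespace K

open Finset MP_8b6acb_co

section

variable {α : Type} [DecidableEq α]

/-- The logarithm of the kernel: star `X`, upper set `U` of the object, sink `D`. -/
noncomputable def KV (ρ : Finset α → α → ℝ) (χ : Finset α → Finset α → ℝ)
    (D X U : Finset α) : ℝ :=
  Real.log ((D.card - U.card).factorial : ℝ) -
    ((D.card : ℝ) - U.card) * Real.log ((D.card : ℝ) - X.card) +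
    (∑ g ∈ D \ U, Real.log (ρ X g)) + χ X U

/-- The colour L value of a type with densities `ρ`, extra part `χ` and `T`-side potential `H`. -/
noncomputable def LV (τ : Finset α → Lab) (D : Finset α) (ρ : Finset α → α → ℝ)
    (χ : Finset α → Finset α → ℝ) (H : Finset α → ℝ) : ℝ :=
  (∑ X ∈ D.powerset, ((∑ V ∈ D.powerset, ∑ x ∈ D \ V, pe τ D X V x * KV ρ χ D X (insert x V)) +
    ∑ V ∈ D.powerset, pv τ D X V * KV ρ χ D X V)) +
  (∑ V ∈ D.powerset, ∑ x ∈ D \ V, yLe τ D V x *
    (Real.log (((V.card : ℝ) + 1) / ((D.card : ℝ) + 1)) + H V +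
      Real.log (Zt τ D / yLe τ D V x))) +
  ∑ V ∈ D.powerset, yLv τ D V *
    (Real.log (D.card : ℝ) + Real.log ((V.card : ℝ) / (D.card : ℝ)) + H V +
      Real.log (Zt τ D / yLv τ D V))

/-- The gain of the `S`-side for the extra part `χ`. -/
noncomputable def SGx (τ : Finset α → Lab) (D : Finset α) (ρ : Finset α → α → ℝ)
    (χ : Finset α → Finset α → ℝ) : ℝ :=
  ∑ X ∈ D.powerset,
    ((∑ g ∈ D \ X, PP1 τ D X g * (Real.log ((D \ X).card : ℝ) - Real.log (ρ X g))) +
    (∑ V ∈ D.powerset, ∑ x ∈ D \ V,
      pe τ D X V x * (χ X (insert x V) - Real.log (bw τ D (insert x V)))) +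
    ∑ V ∈ D.powerset, pv τ D X V * (χ X V - Real.log (bwb τ D V)))

/-- The value of two sides `g`, `g'`. -/
noncomputable def VAL (τ : Finset α → Lab) (D : Finset α) (g g' : ℝ) : ℝ :=
  g + g' - Real.log (D.card : ℝ) * (PEL τ D + PEL (dual τ D) D) - COST1 τ D

/-- The extra part of the set kernel: `mk U` = marks of the object with upper set `U`. -/
noncomputable def cset (ρ : Finset α → α → ℝ) (mk : Finset α → Finset α) (D : Finset α)
    (X U : Finset α) : ℝ :=
  gm mk D U + ((D.card : ℝ) - U.card) *
    (-Real.log (1 - (∑ g ∈ U \ X, ρ X g) / ((D.card : ℝ) - X.card)))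

/-- The gain of the `S`-side with the set kernel. -/
noncomputable def SGs (τ : Finset α → Lab) (D : Finset α) (ρ : Finset α → α → ℝ)
    (mk : Finset α → Finset α) : ℝ := SGx τ D ρ (cset ρ mk D)

end

end K

end R5
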