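import Pool.Agent.Work.MP_8b6acb_fs.Defs
import Pool.Agent.Work.MP_8b6acb_cap.FPART

/-!
# Interface of the set-level engine
-/

namespace R5

namespace K

open Finset MP_8b6acb_co

section Types

variable (α : Type) [DecidableEq α]

/-- A side functional: type, cube, densities, light elements. -/
abbrev Side : Type := (Finset α → Lab) → Finset α → (Finset α → α → ℝ) → Finset α → ℝ

/-- The typewise identity: everything except the value cancels. -/
def Stmt_TYPEK : Prop := ∀ (τ : Finset α → Lab) (D : Finset α) (μ ν : Finset α → ℝ)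
  (χ χ' : Finset α → Finset α → ℝ),
  τ ∅ = Lab.A → τ D = Lab.B → D.Nonempty →
  (∀ V ⊆ D, 0 < μ V) → (∀ V ⊆ D, 0 < ν V) →
  VAL τ D (SGx τ D (fun X g => μ (insert g X) / μ X) χ)
      (SGx (dual τ D) D (fun U g => ν (D \ insert g U) / ν (D \ U)) χ') +
      Zt τ D * Real.log (D.card : ℝ) - ab τ D ∅ / ((D.card : ℝ) + 1) * Real.log (μ ∅) -
      aw τ D / ((D.card : ℝ) + 1) * Real.log (ν D) =
    LV τ D (fun X g => μ (insert g X) / μ X) χ (fun V => -Real.log (ν V)) +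
    LV (dual τ D) D (fun U g => ν (D \ insert g U) / ν (D \ U)) χ'
      (fun U => -Real.log (μ (D \ U)))

variable {α}

/-- THE TYPEWISE INEQUALITY for the side functional `v`: cubes of dimension `l`, capacity `q`.
`L`, `L'` = all light elements at the bottom and at the top (also outside the cube). -/
def Stmt_TIV (v : Side α) (l q : ℕ) : Prop := ∀ (τ : Finset α → Lab) (D L L' : Finset α)
  (ρ ρ' : Finset α → α → ℝ), D.card = l → τ ∅ = Lab.A → τ D = Lab.B →
  (∀ x ∈ D, (x ∈ L ↔ τ {x} = Lab.B)) → (∀ x ∈ D, (x ∈ L' ↔ τ (D.erase x) = Lab.A)) →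
  L.card + L'.card + 1 ≤ q →
  (∀ X ⊆ D, ∀ g ∈ D \ X, 0 < ρ X g ∧ ρ X g ≤ 1) →
  (∀ X ⊆ D, ∀ g ∈ D \ X, 0 < ρ' X g ∧ ρ' X g ≤ 1) →
  0 ≤ VAL τ D (v τ D ρ L) (v (dual τ D) D ρ' L') +
    Real.log ((l : ℝ) / (q : ℝ)) * (PEL τ D + PEL (dual τ D) D)

/-- The side functional of the set kernel: the marks are all the light elements outside the
object. -/
noncomputable def vset : Side α := fun τ D ρ L => SGs τ D ρ (fun U => L \ U)

/-- THE TYPEWISE INEQUALITY for the set kernel on both sides. -/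
def Stmt_TIS (α : Type) [DecidableEq α] (l q : ℕ) : Prop := Stmt_TIV (vset (α := α)) l q

end Types

section Network

variable {α : Type} [Fintype α] [DecidableEq α]

/-- The densities of the source `s`. -/
noncomputable def rS (c : Finset α → Lab) (T : Finset (Finset α)) (a b : Finset α → ℝ)
    (s : Finset α) : Finset α → α → ℝ :=
  fun X g => MU c T a b s (s ∪ insert g X) / MU c T a b s (s ∪ X)

/-- `χ` gives sub-probability kernels. -/
def KerOK (c : Finset α → Lab) (S T : Finset (Finset α)) (a b : Finset α → ℝ)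
    (χ : Finset α → Finset α → Finset α → Finset α → ℝ) : Prop :=
  ∀ s ∈ S, ∀ X U : Finset α, X ⊆ U → Disjoint s U →
    ∑ t ∈ T.filter (fun t => s ∪ U ⊆ t),
      Real.exp (KV (rS c T a b s) (χ s t) (t \ s) X U) ≤ 1

/-- The side functional `v` is legal: in every network it is dominated by a kernel. -/
structure Legal (v : Side α) : Prop where
  congr : ∀ (τ τ' : Finset α → Lab) (D : Finset α) (ρ ρ' : Finset α → α → ℝ) (L : Finset α),
    (∀ U ⊆ D, τ U = τ' U) → (∀ X ⊆ D, ∀ g ∈ D, ρ X g = ρ' X g) → v τ D ρ L = v τ' D ρ' L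
  nonneg : ∀ (τ : Finset α → Lab) (D : Finset α) (ρ : Finset α → α → ℝ) (L : Finset α),
    τ ∅ = Lab.A → τ D = Lab.B → (∀ X ⊆ D, ∀ g ∈ D \ X, 0 < ρ X g ∧ ρ X g ≤ 1) →
    0 ≤ v τ D ρ L
  ker : ∀ (c : Finset α → Lab) (i j : ℕ) (S T : Finset (Finset α)) (a b : Finset α → ℝ)
    (Lf : Finset α → Finset α), Net c i j S T a b → (∀ s ∈ S, Disjoint (Lf s) s) →
    ∃ χ : Finset α → Finset α → Finset α → Finset α → ℝ, KerOK c S T a b χ ∧
      ∀ s ∈ S, ∀ t ∈ T, s ⊆ t →
        v (ty c s) (t \ s) (rS c T a b s) (Lf s) ≤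
          SGx (ty c s) (t \ s) (rS c T a b s) (χ s t)

variable (α)

/-- The colour L part. -/
def Stmt_LPARTK : Prop := ∀ (c : Finset α → Lab) (i j : ℕ) (S T : Finset (Finset α))
  (a b : Finset α → ℝ) (χ : Finset α → Finset α → Finset α → Finset α → ℝ), Net c i j S T a b →
  KerOK c S T a b χ →
  ∑ s ∈ S, ∑ t ∈ T.filter (fun t => s ⊆ t), a s * b t *
    LV (ty c s) (t \ s) (rS c T a b s) (χ s t) (fun V => -Real.log (NU c S a b t (s ∪ V))) ≤
  (∑ e ∈ netE c i j S T, (WE c S T a b e.1 e.2 *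
      Real.log (((e.1.card : ℝ) - i + 1) / ((j : ℝ) - i + 1)) -
      WE c S T a b e.1 e.2 * Real.log (WE c S T a b e.1 e.2))) +
  ∑ v ∈ netX c i j, (WX c S T a b v *
      (Real.log ((j : ℝ) - i) + Real.log (((v.card : ℝ) - i) / ((j : ℝ) - i))) -
      WX c S T a b v * Real.log (WX c S T a b v))

/-- The colour F part (the mirror image of `LPARTK`). -/
def Stmt_FPARTK : Prop := ∀ (c : Finset α → Lab) (i j : ℕ) (S T : Finset (Finset α))
  (a b : Finset α → ℝ) (χ : Finset α → Finset α → Finset α → Finset α → ℝ), Net c i j S T a b →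
  KerOK (FPARTAux.cc c) (T.image compl) (S.image compl) (fun u => b uᶜ) (fun u => a uᶜ) χ →
  ∑ s ∈ S, ∑ t ∈ T.filter (fun t => s ⊆ t), a s * b t *
    LV (dual (ty c s) (t \ s)) (t \ s)
      (fun U g => NU c S a b t (s ∪ ((t \ s) \ insert g U)) / NU c S a b t (s ∪ ((t \ s) \ U)))
      (χ tᶜ sᶜ)
      (fun U => -Real.log (MU c T a b s (s ∪ ((t \ s) \ U)))) ≤
  (∑ e ∈ netE c i j S T, (WFE c S T a b e.1 e.2 *
      Real.log (((j : ℝ) - e.1.card) / ((j : ℝ) - i + 1)) -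
      WFE c S T a b e.1 e.2 * Real.log (WFE c S T a b e.1 e.2))) +
  ∑ v ∈ netX c i j, (WFX c S T a b v *
      (Real.log ((j : ℝ) - i) + Real.log (((j : ℝ) - v.card) / ((j : ℝ) - i))) -
      WFX c S T a b v * Real.log (WFX c S T a b v))

/-- The main network inequality for the capacity `q`. -/
def Stmt_MAINNETK : Prop := ∀ (c : Finset α → Lab) (i j : ℕ) (S T : Finset (Finset α))
  (a b : Finset α → ℝ) (κ : ℝ) (q : ℕ) (χ χ' : Finset α → Finset α → Finset α → Finset α → ℝ),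
  Net c i j S T a b → 0 < κ → 1 ≤ q → KerOK c S T a b χ →
  KerOK (FPARTAux.cc c) (T.image compl) (S.image compl) (fun u => b uᶜ) (fun u => a uᶜ) χ' →
  (∀ s ∈ S, MU c T a b s s ≤ κ) → (∀ t ∈ T, NU c S a b t t ≤ κ) →
  ∀ W : ℝ, W = ∑ s ∈ S, ∑ t ∈ T.filter (fun t => s ⊆ t), a s * b t * Zt (ty c s) (t \ s) →
  0 < W →
  ∑ s ∈ S, ∑ t ∈ T.filter (fun t => s ⊆ t), a s * b t *
    (VAL (ty c s) (t \ s) (SGx (ty c s) (t \ s) (rS c T a b s) (χ s t))
        (SGx (dual (ty c s) (t \ s)) (t \ s)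
          (fun U g => NU c S a b t (s ∪ ((t \ s) \ insert g U)) / NU c S a b t (s ∪ ((t \ s) \ U)))
          (χ' tᶜ sᶜ)) +
      Real.log (((j : ℝ) - i) / (q : ℝ)) *
        (PEL (ty c s) (t \ s) + PEL (dual (ty c s) (t \ s)) (t \ s))) ≤
    W * Real.log (κ * (((netE c i j S T).card : ℝ) + (q : ℝ) * ((netX c i j).card : ℝ)) /
      ((q : ℝ) * W))

variable {α}

/-- The cut inequality. -/
def Stmt_CUTK (v : Side α) : Prop := ∀ (i j q : ℕ) (S : Finset (Finset α))
  (φ : Finset α → Finset α) (c : Finset α → Lab), i + 2 ≤ j → 1 ≤ q → q ≤ j - i →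
  Stmt_TIV v (j - i) q → Mat i j S φ →
  (∀ s ∈ S, c s = Lab.A) → (∀ t ∈ S.image φ, c t = Lab.B) →
  (∀ φ' : Finset α → Finset α, Mat i j S φ' → S.image φ' = S.image φ → ∀ s ∈ S,
    nbS c s + nbT c (φ' s) + 1 ≤ q) →
  q * S.card ≤ (netE c i j S (S.image φ)).card + q * (netX c i j).card

/-- From the typewise inequality to the cut condition. -/
def Stmt_PPK (v : Side α) : Prop := ∀ (i j q : ℕ), i + 2 ≤ j → 1 ≤ q → q ≤ j - i →
  Stmt_TIV v (j - i) q → PP α q i j

end Network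

/-- The final statement of the engine for the set kernel. -/
def Stmt_ENGINES : Prop := ∀ (d i j q : ℕ), i + 2 ≤ j → 1 ≤ q → q ≤ j - i →
  Stmt_TIS (Fin d) (j - i) q → ∀ (S T : Finset (Vtx d)),
  (∀ s ∈ S, wt s = i) → (∀ t ∈ T, wt t = j) → Matched S T → HasEdgeDisjointLR q S T

end K

end R5
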