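import Pool.Agent.Work.MP_8b6acb_fs.Asm

/-! # The typewise inequality for the capacity `l` gives it for all smaller capacities -/

namespace R5

namespace K

open Finset MP_8b6acb_co

theorem tiv_mono {α : Type} [DecidableEq α] {v : Side α} {l q : ℕ} (h : Stmt_TIV v l l)
    (hq : q ≤ l) : Stmt_TIV v l q := by
  intro τ D L L' ρ ρ' hD h0 h1 hL hL' hn hρ hρ'
  have hq1 : 1 ≤ q := by omega
  have hqR : (0 : ℝ) < q := by exact_mod_cast hq1
  have hlR : (q : ℝ) ≤ l := by exact_mod_cast hq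
  have e := h τ D L L' ρ ρ' hD h0 h1 hL hL' (hn.trans hq) hρ hρ'
  have hl0 : (l : ℝ) ≠ 0 := by
    have : (0 : ℝ) < l := lt_of_lt_of_le hqR hlR
    exact this.ne'
  rw [div_self hl0, Real.log_one, zero_mul, add_zero] at e
  have h2 : 0 ≤ Real.log ((l : ℝ) / (q : ℝ)) :=
    Real.log_nonneg (by rw [le_div_iff₀ hqR]; linarith)
  have h3 := mul_nonneg h2 (add_nonneg (CQ.PEL_nonneg τ D) (CQ.PEL_nonneg (dual τ D) D))
  linarith

/-- The typewise inequality for the capacity `l` implies the one for every `q ≤ l`. -/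
theorem tis_mono {α : Type} [DecidableEq α] {l q : ℕ} (h : Stmt_TIS α l l) (hq : q ≤ l) :
    Stmt_TIS α l q := tiv_mono h hq

/-- **The full theorem from the typewise inequality.** -/
theorem all_systems (hTIS : ∀ (d l : ℕ), 2 ≤ l → Stmt_TIS (Fin d) l l) {d i j : ℕ}
    (hij : i < j) (h1 : j = i + 1 → ∀ (S T : Finset (Vtx d)), (∀ s ∈ S, wt s = i) →
      (∀ t ∈ T, wt t = j) → Matched S T → HasEdgeDisjointLR 1 S T)
    (S T : Finset (Vtx d)) (hS : ∀ s ∈ S, wt s = i) (hT : ∀ t ∈ T, wt t = j)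
    (hST : Matched S T) : HasEdgeDisjointLR (j - i) S T := by
  rcases Nat.lt_or_ge j (i + 2) with h | h
  · have hj : j = i + 1 := by omega
    have e : j - i = 1 := by omega
    rw [e]
    exact h1 hj S T hS hT hST
  · exact engineS d i j (j - i) h (by omega) le_rfl (hTIS d (j - i) (by omega)) S T hS hT hST

end K

end R5
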