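import Pool.Agent.Work.MP_8b6acb_fs.Interface
import Pool.Agent.Work.MP_8b6acb_ti.Side0

/-!
# The T-lemma for the set kernel: definitions and statements

`V` = a T-state, `m = |V|`, `pre π j` = the set of the first `j` elements of the order `π` of `V`.
Everything as in the path layer (`MP_8b6acb_ti`).
-/

namespace R5

namespace K

open Finset T7

variable {α : Type} [DecidableEq α]

/-- The elements of `P \ U` which do not continue the `A`-run at `U`. -/
def fex (τ : Finset α → Lab) (P U : Finset α) : Finset α :=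
  (P \ U).filter (fun y => τ (insert y U) ≠ Lab.A)

/-- The Gibbs term of the level `U` for the passed set `P`. -/
noncomputable def gb (τ : Finset α → Lab) (P U : Finset α) : ℝ :=
  Real.log (((P \ U).card : ℝ) / (((P \ U).card : ℝ) - (fex τ P U).card))

/-- The cost of a T-state for the set kernel (after Gibbs). -/
noncomputable def cstG (τ : Finset α → Lab) (ρ : α → ℝ) (V : Finset α) (π : List α) : ℝ :=
  ∑ k ∈ range V.card,
    (iE τ π k * (∑ x ∈ nx π k, (-Real.log (ρ x)) +
        (k : ℝ) * Lf V.card (∑ x ∈ V \ pre π k, ρ x) +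
        ∑ j ∈ range k, gb τ (pre π k) (pre π j)) +
      iX τ π k * (((k : ℝ) + 1) * Lf V.card (∑ x ∈ V \ pre π (k + 1), ρ x) +
        ∑ j ∈ range k, gb τ (pre π (k + 1)) (pre π j)))

/-- The demand, natural form: `n0` (levels without edge exit) on edge stops, the charges `L(a_j)`
of the slots `j < k` (edge stop) or `j ≤ k` (vertex stop), and `lam (m - 1 - k) + L(a_k)` if the
exit is heavy (i.e. not a live light). -/
noncomputable def demN (τ : Finset α → Lab) (V : Finset α) (π : List α) : ℝ :=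
  ∑ k ∈ range V.card,
    (iE τ π k * (lamn V.card * n0 τ V π k +
        ∑ j ∈ range k, Lf V.card ((AL τ V (pre π j)).card : ℝ) +
        ∑ _x ∈ nx π k \ AL τ V (pre π k), (lamn V.card * ((V.card : ℝ) - 1 - k) +
          Lf V.card ((AL τ V (pre π k)).card : ℝ))) +
      iX τ π k * ∑ j ∈ range (k + 1), Lf V.card ((AL τ V (pre π j)).card : ℝ))

variable (α)

/-- **THE T-LEMMA FOR THE SET KERNEL**, natural form. -/
def Stmt_CTN : Prop := ∀ (τ : Finset α → Lab) (ρ : α → ℝ) (V : Finset α), τ ∅ = Lab.A →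
  τ V = Lab.B → 2 ≤ V.card → (∀ x ∈ V, 0 < ρ x ∧ ρ x ≤ 1) →
  Av V (demN τ V) ≤ Av V (cstG τ ρ V)

/-- **THE T-LEMMA FOR THE SET KERNEL**, form of `CT0_Av`. -/
def Stmt_CTG : Prop := ∀ (τ : Finset α → Lab) (ρ : α → ℝ) (V : Finset α), τ ∅ = Lab.A →
  τ V = Lab.B → 1 ≤ V.card → (∀ x ∈ V, 0 < ρ x ∧ ρ x ≤ 1) →
  lamn V.card * Av V (fun π => ∑ k ∈ range V.card,
        iE τ π k * (((V.card : ℝ) - 1 - k) + n0 τ V π k)) ≤
      Av V (cstG τ ρ V) + Av V (fun π => ∑ i ∈ range V.card,
        iA τ π i * cc V.card (AL τ V (pre π i)).card (V.card - i))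

end K

end R5
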